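import Pool.Agent.H7.Han.Dee
import Pool.Agent.H7.Han.Inv

set_option autoImplicit false
open scoped InnerProductSpace

namespace Pool.Han.Tra

section gen
variable {Γ : Type*} [Group Γ] {E : Type*} [NormedAddCommGroup E] [InnerProductSpace ℝ E]

/-- representative of a coset -/
noncomputable def rep (D : Subgroup Γ) (c : Γ ⧸ D) : Γ := c.out

lemma rep_mk (D : Subgroup Γ) (c : Γ ⧸ D) : (QuotientGroup.mk (rep D c) : Γ ⧸ D) = c :=
  QuotientGroup.out_eq' c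

/-- the element of `D` moving along the coset `c` -/
noncomputable def mv (D : Subgroup Γ) [D.Normal] (x : Γ) (c : Γ ⧸ D) : Γ :=
  x * rep D c * (rep D ((QuotientGroup.mk x : Γ ⧸ D) * c))⁻¹

lemma mv_mem (D : Subgroup Γ) [D.Normal] (x : Γ) (c : Γ ⧸ D) : mv D x c ∈ D := by
  rw [← QuotientGroup.eq_one_iff, mv, QuotientGroup.mk_mul, QuotientGroup.mk_mul, QuotientGroup.mk_inv,
    rep_mk, rep_mk, mul_inv_cancel]

lemma mv_mul (D : Subgroup Γ) [D.Normal] (x y : Γ) (c : Γ ⧸ D) :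
    mv D (x * y) c = (x * mv D y c * x⁻¹) * mv D x ((QuotientGroup.mk y : Γ ⧸ D) * c) := by
  simp only [mv, QuotientGroup.mk_mul, mul_assoc]
  group

lemma mv_of_mem (D : Subgroup Γ) [D.Normal] {d : Γ} (hd : d ∈ D) (c : Γ ⧸ D) : mv D d c = d := by
  rw [mv, (QuotientGroup.eq_one_iff d).2 hd, one_mul, mul_inv_cancel_right]

/-- Transfer of an equivariant homomorphism from a normal subgroup of finite index. -/
theorem transfer (D : Subgroup Γ) [D.Normal] [Fintype (Γ ⧸ D)] (ρ : Γ →* (E ≃ₗᵢ[ℝ] E)) (hh : D → E)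
    (h1 : ∀ d d', hh (d * d') = hh d + hh d')
    (h2 : ∀ (g : Γ) (d : D) (h : g * d * g⁻¹ ∈ D), hh ⟨g * d * g⁻¹, h⟩ = ρ g (hh d)) :
    ∃ tr : Γ → E, (∀ g h, tr (g * h) = tr g + ρ g (tr h)) ∧ (∀ d : D, tr d = hh d) ∧
      (∀ x, tr x = (Fintype.card (Γ ⧸ D) : ℝ)⁻¹ • ∑ c : Γ ⧸ D, hh ⟨mv D x c, mv_mem D x c⟩) := by
  have hN : (Fintype.card (Γ ⧸ D) : ℝ) ≠ 0 := by
    have : 0 < Fintype.card (Γ ⧸ D) := Fintype.card_pos_iff.2 ⟨QuotientGroup.mk 1⟩
    positivity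
  refine ⟨fun x => (Fintype.card (Γ ⧸ D) : ℝ)⁻¹ • ∑ c : Γ ⧸ D, hh ⟨mv D x c, mv_mem D x c⟩, ?_, ?_,
    fun x => rfl⟩
  · intro x y
    have e : ∀ c : Γ ⧸ D, hh ⟨mv D (x * y) c, mv_mem D _ c⟩ = ρ x (hh ⟨mv D y c, mv_mem D y c⟩) +
        hh ⟨mv D x ((QuotientGroup.mk y : Γ ⧸ D) * c), mv_mem D x _⟩ := by
      intro c
      have hc : x * mv D y c * x⁻¹ ∈ D := Subgroup.Normal.conj_mem inferInstance _ (mv_mem D y c) x
      rw [← h2 x ⟨mv D y c, mv_mem D y c⟩ hc, ← h1]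
      congr 1
      exact Subtype.ext (mv_mul D x y c)
    beta_reduce
    rw [Finset.sum_congr rfl fun c _ => e c, Finset.sum_add_distrib, smul_add, add_comm]
    congr 1
    · congr 1
      exact Fintype.sum_equiv (Equiv.mulLeft (QuotientGroup.mk y : Γ ⧸ D)) _ _ fun c => rfl
    · rw [map_smul, map_sum]
  · intro d
    have e : ∀ c : Γ ⧸ D, hh ⟨mv D (d : Γ) c, mv_mem D _ c⟩ = hh d := by
      intro c
      congr 1
      exact Subtype.ext (mv_of_mem D d.2 c)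
    show (Fintype.card (Γ ⧸ D) : ℝ)⁻¹ • ∑ c : Γ ⧸ D, hh ⟨mv D (d : Γ) c, mv_mem D _ c⟩ = hh d
    rw [Finset.sum_congr rfl fun c _ => e c, Finset.sum_const, Finset.card_univ,
      ← Nat.cast_smul_eq_nsmul ℝ, smul_smul, inv_mul_cancel₀ hN, one_smul]

end gen

section han

/-- a cocycle whose values are fixed by `Gb` is bounded on an element of `Gb` by its values on
triangles -/
lemma bd_Gb : ∀ d ∈ Gb, ∃ C : ℝ, 0 ≤ C ∧ ∀ (E : Type) [NormedAddCommGroup E] [InnerProductSpace ℝ E]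
    (ρ : G →* (E ≃ₗᵢ[ℝ] E)) (c : G → E), (∀ g h, c (g * h) = c g + ρ g (c h)) →
    (∀ x, c x ∈ fix ρ Gb) → ∀ M : ℝ, 0 ≤ M →
    (∀ a b j : X, a ≠ b → b ≠ j → a ≠ j → ‖c (T a b j)‖ ≤ M) → ‖c d‖ ≤ C * M := by
  refine Gb_ind ?_ ?_ ?_ ?_
  · refine ⟨0, le_rfl, ?_⟩
    intro E _ _ ρ c hc _ M hM _
    have h : c 1 = 0 := by
      have h := hc 1 1
      rw [mul_one, map_one] at h
      exact left_eq_add.mp h
    rw [h, norm_zero, zero_mul]
  · intro a b j h1 h2 h3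
    refine ⟨1, zero_le_one, ?_⟩
    intro E _ _ ρ c hc _ M hM hT
    rw [one_mul]
    exact hT a b j h1 h2 h3
  · rintro g h hg hh ⟨C, hC, H⟩ ⟨C', hC', H'⟩
    refine ⟨C + C', add_nonneg hC hC', ?_⟩
    intro E _ _ ρ c hc hf M hM hT
    rw [hc, add_mul]
    refine (norm_add_le _ _).trans (add_le_add (H E ρ c hc hf M hM hT) ?_)
    rw [LinearIsometryEquiv.norm_map]
    exact H' E ρ c hc hf M hM hT
  · rintro g x hx ⟨C, hC, H⟩
    refine ⟨C, hC, ?_⟩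
    intro E _ _ ρ c hc hf M hM hT
    have h1 : c (g * x * g⁻¹) = ρ g (c x) := by
      have e1 : c (g * g⁻¹) = 0 := by
        rw [mul_inv_cancel]
        have h := hc 1 1
        rw [mul_one, map_one] at h
        exact left_eq_add.mp h
      rw [hc] at e1
      have e2 : ρ x (c g⁻¹) = c g⁻¹ := hf g⁻¹ x hx
      rw [mul_assoc, hc, hc, e2, map_add]
      rw [add_left_comm, e1, add_zero]
    rw [h1, LinearIsometryEquiv.norm_map]
    exact H E ρ c hc hf M hM hT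

/-- the same for a finite set of elements of `Gb` -/
lemma bd_Gb_fin (S : Finset G) (hS : ∀ d ∈ S, d ∈ Gb) : ∃ C : ℝ, 0 ≤ C ∧
    ∀ (E : Type) [NormedAddCommGroup E] [InnerProductSpace ℝ E]
    (ρ : G →* (E ≃ₗᵢ[ℝ] E)) (c : G → E), (∀ g h, c (g * h) = c g + ρ g (c h)) →
    (∀ x, c x ∈ fix ρ Gb) → ∀ M : ℝ, 0 ≤ M →
    (∀ a b j : X, a ≠ b → b ≠ j → a ≠ j → ‖c (T a b j)‖ ≤ M) → ∀ d ∈ S, ‖c d‖ ≤ C * M := by
  classical
  induction S using Finset.induction_on with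
  | empty => exact ⟨0, le_rfl, by intros; simp_all⟩
  | insert s S hs ih =>
    obtain ⟨C, hC, H⟩ := ih fun d hd => hS d (Finset.mem_insert_of_mem hd)
    obtain ⟨C', hC', H'⟩ := bd_Gb s (hS s (Finset.mem_insert_self _ _))
    refine ⟨C + C', add_nonneg hC hC', ?_⟩
    intro E _ _ ρ c hc hf M hM hT d hd
    rw [Finset.mem_insert] at hd
    have m1 := mul_nonneg hC hM
    have m2 := mul_nonneg hC' hM
    rw [add_mul]
    rcases hd with rfl | hd
    · linarith [H' E ρ c hc hf M hM hT]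
    · linarith [H E ρ c hc hf M hM hT d hd]

/-- letters: for a transferred cocycle, the value at every letter is bounded by the values on the
triangles -/
theorem bd_tr [Fintype (G ⧸ D1)] : ∃ C : ℝ, 0 ≤ C ∧
    ∀ (E : Type) [NormedAddCommGroup E] [InnerProductSpace ℝ E]
    (ρ : G →* (E ≃ₗᵢ[ℝ] E)) (c : G → E), (∀ g h, c (g * h) = c g + ρ g (c h)) →
    (∀ x, c x ∈ fix ρ Gb) →
    (∀ x, c x = (Fintype.card (G ⧸ D1) : ℝ)⁻¹ • ∑ k : G ⧸ D1, c (mv D1 x k)) → ∀ M : ℝ, 0 ≤ M →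
    (∀ a b j : X, a ≠ b → b ≠ j → a ≠ j → ‖c (T a b j)‖ ≤ M) → ∀ i j : X, ‖c (L i j)‖ ≤ C * M := by
  classical
  let S : Finset G := (Finset.univ : Finset (X × X × (G ⧸ D1))).image fun s => mv D1 (L s.1 s.2.1) s.2.2
  obtain ⟨C, hC, H⟩ := bd_Gb_fin S (by
    intro d hd
    obtain ⟨s, -, rfl⟩ := Finset.mem_image.1 hd
    exact D1_le (mv_mem D1 _ _))
  refine ⟨C, hC, ?_⟩
  intro E _ _ ρ c hc hf hav M hM hT i j
  have hN : 0 < (Fintype.card (G ⧸ D1) : ℝ) := by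
    have : 0 < Fintype.card (G ⧸ D1) := Fintype.card_pos_iff.2 ⟨QuotientGroup.mk 1⟩
    positivity
  rw [hav, norm_smul, norm_inv, Real.norm_of_nonneg hN.le, inv_mul_le_iff₀ hN]
  refine (norm_sum_le _ _).trans ?_
  refine (Finset.sum_le_sum (g := fun _ => C * M) fun k _ => H E ρ c hc hf M hM hT _ ?_).trans ?_
  · exact Finset.mem_image.2 ⟨(i, j, k), Finset.mem_univ _, rfl⟩
  · rw [Finset.sum_const, Finset.card_univ, nsmul_eq_mul]

end han

end Pool.Han.Tra
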